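import Pool.Agent.Helper61.LN.Goals

/-!
# PROJECT LN (MP_c65973_gt): packet IC
-/

set_option autoImplicit false

namespace Pool.Agent.Helper44.LN.IC

open Pool.Agent.Helper31.Sk Pool.Agent.Helper61.LN

theorem srcle (g : Gen) : g.src ≤ 2 := by cases g <;> simp [Gen.src]

theorem leg_two {a b c i j : ℕ} {g h : Gen} (h1 : i + g.src ≤ a) (h2 : a - g.src + g.tgt = b)
    (h3 : j + h.src ≤ b) (h4 : b - h.src + h.tgt = c) : Legal a [(i, g), (j, h)] c := by
  subst h2
  subst h4
  exact ⟨h1, h3, rfl⟩

theorem leg_one {a b i : ℕ} {g : Gen} (h1 : i + g.src ≤ a) (h2 : a - g.src + g.tgt = b) :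
    Legal a [(i, g)] b := by
  subst h2
  exact ⟨h1, rfl⟩

theorem t1 : S_ICR := by
  intro m n t
  induction t generalizing m with
  | nil =>
    intro h q r g
    simp only [Legal] at h
    subst h
    exact iso_refl _ _ _
  | cons s t ih =>
    intro hl q r g
    obtain ⟨p, h⟩ := s
    obtain ⟨h1, h2⟩ := hl
    have i1 := ih _ h2 q r g
    set m' := m - h.src + h.tgt with hm'
    have e1 : p + h.tgt + (m - h.src + q - p) = m' + q := by omega
    have e2 : p + h.src + (m - h.src + q - p) = m + q := by omega
    have i2 := iso_left (k := m + q + g.src + r) i1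
      (leg_one (i := p) (g := h) (by omega) (by omega))
    have el := Elem.comm p (m - h.src + q - p) h g
    rw [e1, e2] at el
    have i3 : Iso (m + q + g.src + r) (m' + q + g.tgt + r) [(p, h), (m' + q, g)]
        [(m + q, g), (p, h)] :=
      iso_elem el (leg_two (b := m' + q + g.src + r) (by omega) (by omega) (by omega) (by omega))
        (leg_two (b := m + q + g.tgt + r) (by omega) (by omega) (by omega) (by omega))
    have l4 : Legal (m' + q + g.tgt + r) t (n + q + g.tgt + r) := by
      have := leg_right t m' n (q + g.tgt + r) h2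
      have e3 : m' + (q + g.tgt + r) = m' + q + g.tgt + r := by ring
      have e4 : n + (q + g.tgt + r) = n + q + g.tgt + r := by ring
      rwa [e3, e4] at this
    have i4 := iso_right i3 l4
    exact iso_trans i2 i4

theorem t2 : S_ICL := by
  intro m n t
  induction t generalizing m with
  | nil =>
    intro h p q r g
    simp only [Legal] at h
    subst h
    exact iso_refl _ _ _
  | cons s t ih =>
    intro hl p q r g
    obtain ⟨p', h⟩ := s
    obtain ⟨h1, h2⟩ := hl
    have i1 := ih _ h2 p q r g
    set m' := m - h.src + h.tgt with hm'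
    rw [sh_cons, sh_cons]
    have e1 : p + g.tgt + (q + p') = p' + (p + g.tgt + q) := by ring
    have e2 : p + g.src + (q + p') = p' + (p + g.src + q) := by ring
    have i2 := iso_left (k := p + g.src + q + m + r) i1
      (leg_one (i := p' + (p + g.src + q)) (g := h) (by omega) (by omega))
    have el := Elem.comm p (q + p') g h
    rw [e1, e2] at el
    have i3 : Iso (p + g.src + q + m + r) (p + g.tgt + q + m' + r)
        [(p, g), (p' + (p + g.tgt + q), h)] [(p' + (p + g.src + q), h), (p, g)] :=
      iso_elem el (leg_two (b := p + g.tgt + q + m + r) (by omega) (by omega) (by omega)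
        (by omega)) (leg_two (b := p + g.src + q + m' + r) (by omega) (by omega) (by omega)
        (by omega))
    have l4 : Legal (p + g.tgt + q + m' + r) (shift (p + g.tgt + q) t)
        (p + g.tgt + q + n + r) := by
      have := leg_sh (p + g.tgt + q) r h2
      have e3 : m' + (p + g.tgt + q) + r = p + g.tgt + q + m' + r := by ring
      have e4 : n + (p + g.tgt + q) + r = p + g.tgt + q + n + r := by ring
      rwa [e3, e4] at this
    have i4 := iso_right (iso_symm i3) l4
    exact iso_trans i2 i4

end Pool.Agent.Helper44.LN.IC
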